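import Pool.Agent.helper45.L9.JSlots

/-!
# The joint stage: a new label for the own neighbour of a link

`jst_relabel`: `b` is the labelled own neighbour of the unlabelled link `y`, it has two own
neighbours `y`, `c`, and its cross neighbour `d` is an unlabelled middle.  Then `b` has another odd
label.
-/

set_option autoImplicit false
set_option linter.unusedSectionVars false
set_option linter.unusedVariables false

namespace Pool.Agent.helper45.L9

open Finset Classical Helper33.L9 Helper17.L9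
open Helper42.L9 hiding near
open Pool.Agent.helper58.L9 hiding Fr
open Pool.Agent.helper40.L9 (JSt Bad Tol LamU)

variable {V : Type*} [Fintype V] {G : SimpleGraph V} {X L : V → Prop} {f : V → ℕ}
  {Z S : Finset V}

/-- **Relabelling.** -/
theorem jst_relabel (hcub : ∀ v, (univ.filter fun b => G.Adj v b).card = 3)
    (st : JSt G X L f) {b y c d p q d1 d2 : V} (Yb : ¬ X b) (Yy : ¬ X y) (Yc : ¬ X c)
    (Lb : L b) (hodd : ¬ Even (f b)) (nb : Nb G b y c d) (ny : Nb G y b p q) (nd : Nb G d b d1 d2)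
    (hy : ¬ L y) (hp : ¬ L p) (hq : ¬ L q) (hd : ¬ L d) (cb : cc G X b = 3)
    (Xd1 : X d1) (Xd2 : X d2) :
    ∃ f' : V → ℕ, JSt G X L f' ∧ (∀ v, v ≠ b → f' v = f v) ∧ ¬ Even (f' b) ∧ f' b ≠ f b := by
  obtain ⟨c1, c2, nc⟩ := nb_one hcub nb.hb.symm
  obtain ⟨l, ⟨hl1, hl9⟩, e1, e2, e3, e4⟩ := five_odd (f b) (f c) (f c1) (f c2)
  have hlo : ¬ Even l := by
    rw [Nat.even_iff]
    omega
  have hcodd : L c → ¬ Even (f c) := by
    intro hc
    refine odd_ok (fun hbad => ?_) Yc
    obtain ⟨c2', b', hub', -, cb', -⟩ := st.tol c y hc hbad hy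
      (Helper33.L9.near_symm ⟨nb.ab, Or.inr ⟨b, nb.ha.symm, nb.hb⟩⟩)
    rw [own_one' hcub c2' hub' ⟨nb.ha.symm, iff_of_false Yy Yb⟩] at cb'
    omega
  have hd1 : L d1 → Even (f d1) := fun h => even_ok (ok_adj st hd nd.hb h) Xd1
  have hd2 : L d2 → Even (f d2) := fun h => even_ok (ok_adj st hd nd.hc h) Xd2
  -- conflicts
  have hconf : ∀ x, Helper33.L9.near G b x → L x → f x ≠ l := by
    intro x hn hL
    rcases near9 nb ny nc nd hn with h | h | h | h | h | h | h | h | h
    · exact absurd (h ▸ hL) hy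
    · rw [h]; exact e2.symm
    · exact absurd (h ▸ hL) hd
    · exact absurd (h ▸ hL) hp
    · exact absurd (h ▸ hL) hq
    · rw [h]; exact e3.symm
    · rw [h]; exact e4.symm
    · rw [h] at hL ⊢
      intro he
      exact hlo (he ▸ hd1 hL)
    · rw [h] at hL ⊢
      intro he
      exact hlo (he ▸ hd2 hL)
  have hadj : ∀ x, G.Adj b x → L x → l + 2 ≤ f x ∨ f x + 2 ≤ l := by
    intro x ha hL
    rcases nb.all x ha with h | h | h
    · exact absurd (h ▸ hL) hy
    · have h1 := hcodd (h ▸ hL)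
      rw [Nat.even_iff] at h1
      rw [h]
      omega
    · exact absurd (h ▸ hL) hd
  have hnb : ∀ v, v ≠ b → (if v = b then l else f v) = f v := fun v hv => if_neg hv
  have hbad : ∀ e, Bad X (fun v => if v = b then l else f v) e → e ≠ b ∧ Bad X f e := by
    intro e he
    by_cases h : e = b
    · exfalso
      subst h
      unfold Bad at he
      beta_reduce at he
      rw [if_pos rfl] at he
      tauto
    · refine ⟨h, ?_⟩
      unfold Bad at he ⊢
      beta_reduce at he
      rw [if_neg h] at he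
      exact he
  have hbad' : ∀ e, ¬ Bad X f e → ¬ Bad X (fun v => if v = b then l else f v) e :=
    fun e h1 h2 => h1 (hbad e h2).2
  refine ⟨fun v => if v = b then l else f v, ⟨?_, ?_, ?_, ?_, ?_⟩, hnb, ?_, ?_⟩
  · intro v hv
    beta_reduce
    split_ifs
    · exact hl9
    · exact st.le v hv
  · intro u v hu hv ha
    beta_reduce
    by_cases h1 : u = b
    · subst h1
      have h2 : v ≠ u := ha.ne.symm
      rw [if_pos rfl, if_neg h2]
      exact hadj v ha hv
    · by_cases h2 : v = b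
      · subst h2
        rw [if_pos rfl, if_neg h1]
        exact (hadj u ha.symm hu).symm
      · rw [if_neg h1, if_neg h2]
        exact st.adj u v hu hv ha
  · intro u v hu hv hn
    beta_reduce
    by_cases h1 : u = b
    · subst h1
      have h2 : v ≠ u := hn.1.symm
      rw [if_pos rfl, if_neg h2]
      exact (hconf v hn hv).symm
    · by_cases h2 : v = b
      · subst h2
        rw [if_pos rfl, if_neg h1]
        exact hconf u (Helper33.L9.near_symm hn) hu
      · rw [if_neg h1, if_neg h2]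
        exact st.ne u v hu hv hn
  · intro e v he hb ha
    exact st.adjL e v he (hbad e hb).2 ha
  · intro e v he hb hv hn
    obtain ⟨c2', b', hub', hLb', cb', heb', hall⟩ := st.tol e v he (hbad e hb).2 hv hn
    exact ⟨c2', b', hub', hLb', cb', heb', fun e' he' hne =>
      ⟨(hall e' he' hne).1, hbad' e' (hall e' he' hne).2⟩⟩
  · beta_reduce
    rw [if_pos rfl]
    exact hlo
  · beta_reduce
    rw [if_pos rfl]
    exact e1

section

variable {v1 v2 v3 v4 v5 z1 z3 z5 l1 l5 : V} {kA kB : ℕ}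
  {pA uA vA qA yA pB uB vB qB yB : ℕ → V} {w1 w3 w3' w5 ba0 bak bb0 bbk : V}
  (hcub : ∀ v, (univ.filter fun b => G.Adj v b).card = 3)
  (H : JC G X Z S L f v1 v2 v3 v4 v5 z1 z3 z5 l1 l5 kA kB pA uA vA qA yA pB uB vB qB yB
    w1 w3 w3' w5 ba0 bak bb0 bbk)

include H

include hcub in
/-- **Relabelling of `bak`.** -/
theorem JC.relabel {c d : V} (nb : Nb G bak (yA kA) c d) (cb : cc G X bak = 3) (Yc : ¬ X c)
    (Xd : X d) (Lb : L bak) (hd : ¬ L d) (cd : cc G X d = 3) (hNM : NMAt G X d) :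
    ∃ f' : V → ℕ, JC G X Z S L f' v1 v2 v3 v4 v5 z1 z3 z5 l1 l5 kA kB pA uA vA qA yA
      pB uB vB qB yB w1 w3 w3' w5 ba0 bak bb0 bbk ∧ (∀ v, v ≠ bak → f' v = f v) ∧
      ¬ Even (f' bak) ∧ f' bak ≠ f bak := by
  obtain ⟨d1, d2, nd⟩ := nb_one hcub nb.hc.symm
  have hYb := H.n.Cak
  have key : X d1 ∧ X d2 := by
    by_contra hcon
    by_cases X1 : X d1
    · have X2 : ¬ X d2 := fun h => hcon ⟨X1, h⟩
      have h2 : cc G X d = 2 := by
        have nd' : Nb G d d1 bak d2 := nd.swap
        exact cc_of_cross nd' (iff_of_true X1 Xd) (fun hh => hYb (hh.mpr Xd))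
          (fun hh => X2 (hh.mpr Xd))
      omega
    · by_cases X2 : X d2
      · have h2 : cc G X d = 2 := by
          have nd' : Nb G d d2 bak d1 := nd.rot.rot
          exact cc_of_cross nd' (iff_of_true X2 Xd) (fun hh => hYb (hh.mpr Xd))
            (fun hh => X1 (hh.mpr Xd))
        omega
      · exact hNM bak d1 d2 nd.ha nd.hb nd.hc nd.ab nd.ac nd.bc
          ⟨iff_of_false hYb X1, iff_of_false hYb X2⟩
  obtain ⟨f', h1, h2, h3, h4⟩ := jst_relabel hcub H.st H.n.Cak H.n.Ak Yc Lb (H.par_bak Lb)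
    nb H.n.ak.rot.rot nd (H.uyA le_rfl) H.u1 H.uva hd cb key.1 key.2
  exact ⟨f', ⟨H.h, H.n, h1, H.hL⟩, h2, h3, h4⟩

end

end Pool.Agent.helper45.L9
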