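import Pool.Agent.helper17.L9.U5Nb

/-!
# The joint stage: the vertices near a `U_5`

Which vertices near `v1`, near the last link `yAk` and near the first link `yA0` of a wire carry an
odd label, and which special links are near each other.
-/

set_option autoImplicit false
set_option linter.unusedSectionVars false
set_option linter.unusedVariables false

namespace Pool.Agent.helper45.L9

open Finset Classical Helper33.L9 Helper17.L9
open Helper42.L9 hiding near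
open Pool.Agent.helper58.L9 hiding Fr
open Pool.Agent.helper40.L9 (JSt Bad Tol LamU)

variable {V : Type*} [Fintype V] {G : SimpleGraph V} {X L : V → Prop} {f : V → ℕ}
  {Z S : Finset V}

section basic

variable (hcub : ∀ v, (univ.filter fun b => G.Adj v b).card = 3)

/-- a labelled neighbour of an unlabelled vertex is not bad -/
theorem ok_adj (st : JSt G X L f) {e u : V} (hu : ¬ L u) (ha : G.Adj u e) (he : L e) :
    ¬ Bad X f e := fun hb => hu (st.adjL e u he hb ha.symm)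

include hcub in
/-- a labelled vertex near an unlabelled end with unlabelled own neighbour is not bad -/
theorem ok_near (st : JSt G X L f) {e u b : V} (hu : ¬ L u) (hb : ¬ L b)
    (ho : ownR G X u b) (hn : Helper33.L9.near G u e) (he : L e) : ¬ Bad X f e := by
  intro hbad
  obtain ⟨c2, b', hub', hLb', -⟩ := st.tol e u he hbad hu (Helper33.L9.near_symm hn)
  exact hb ((own_one' hcub c2 hub' ho) ▸ hLb')

/-- a labelled vertex near an unlabelled middle is not bad -/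
theorem ok_near3 (st : JSt G X L f) {e u : V} (hu : ¬ L u) (cu : cc G X u = 3)
    (hn : Helper33.L9.near G u e) (he : L e) : ¬ Bad X f e := by
  intro hbad
  have := (st.tol e u he hbad hu (Helper33.L9.near_symm hn)).1
  omega

omit [Fintype V] in
theorem even_ok {e : V} (h : ¬ Bad X f e) (he : X e) : Even (f e) := by
  unfold Bad at h
  tauto

omit [Fintype V] in
theorem odd_ok {e : V} (h : ¬ Bad X f e) (he : ¬ X e) : ¬ Even (f e) := by
  unfold Bad at h
  tauto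

/-- two cross neighbours -/
theorem cc_of_cross {b y c d : V} (nb : Nb G b y c d) (hy : X y ↔ X b) (hc : ¬ (X c ↔ X b))
    (hd : ¬ (X d ↔ X b)) : cc G X b = 2 := by
  rw [cc_two']
  have : cr G X b = {c, d} := by
    ext x
    rw [mem_cr, Finset.mem_insert, Finset.mem_singleton]
    constructor
    · rintro ⟨h1, h2⟩
      rcases nb.all x h1 with rfl | rfl | rfl
      · exact absurd hy h2
      · exact Or.inl rfl
      · exact Or.inr rfl
    · rintro (rfl | rfl)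
      · exact ⟨nb.hb, hc⟩
      · exact ⟨nb.hc, hd⟩
  rw [this, Finset.card_pair nb.bc]

include hcub in
/-- two own neighbours -/
theorem cc_of_own {b y c d : V} (nb : Nb G b y c d) (hy : X y ↔ X b) (hc : X c ↔ X b) :
    cc G X b = 3 := cc_inner' hcub nb.ha nb.hb nb.ab hy hc

/-- **The neighbours of the own neighbour `b` of an unlabelled link `y`.**  `s` is an unlabelled
vertex on the other side. -/
theorem slot_aux (hcub : ∀ v, (univ.filter fun b => G.Adj v b).card = 3)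
    (st : JSt G X L f) {y b s : V} (cy : cc G X y = 2) (hy : ¬ L y)
    (Yy : ¬ X y) (Yb : ¬ X b) (hyb : G.Adj y b) (hNM : NMAt G X b) (hs : ¬ L s) (Xs : X s)
    (hsb : G.Adj b s → cc G X b = 2) :
    ∃ c d, Nb G b y c d ∧ (cc G X b = 3 → ¬ X c ∧ X d) ∧ (cc G X b = 2 → X c ∧ X d) ∧
      (∀ t, G.Adj b t → t ≠ y → (L t ∧ ¬ Even (f t)) ∨ ¬ X t ∨ t = s → t = c) ∧
      (L d → Even (f d)) ∧ (¬ L d → cc G X b = 3 ∨ ¬ (L c ∧ ¬ Even (f c))) := by
  have hoy : ownR G X y b := ⟨hyb, iff_of_false Yy Yb⟩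
  -- the case of two own neighbours
  have key3 : ∀ c d, Nb G b y c d → ¬ X c → X d →
      ∃ c d, Nb G b y c d ∧ (cc G X b = 3 → ¬ X c ∧ X d) ∧ (cc G X b = 2 → X c ∧ X d) ∧
      (∀ t, G.Adj b t → t ≠ y → (L t ∧ ¬ Even (f t)) ∨ ¬ X t ∨ t = s → t = c) ∧
      (L d → Even (f d)) ∧ (¬ L d → cc G X b = 3 ∨ ¬ (L c ∧ ¬ Even (f c))) := by
    intro c d nb Yc Xd
    have c3 : cc G X b = 3 := cc_of_own hcub nb (iff_of_false Yy Yb) (iff_of_false Yc Yb)
    have hnear : Helper33.L9.near G y d := ⟨nb.ac, Or.inr ⟨b, hyb, nb.hc⟩⟩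
    have hd : L d → Even (f d) := by
      intro hL
      refine even_ok (fun hbad => ?_) Xd
      obtain ⟨-, b', hub', -, cb', -⟩ := st.tol d y hL hbad hy (Helper33.L9.near_symm hnear)
      rw [own_one' hcub cy hub' hoy] at cb'
      omega
    refine ⟨c, d, nb, fun _ => ⟨Yc, Xd⟩, fun h2 => by omega, ?_, hd, fun _ => Or.inl c3⟩
    intro t ht hty h
    rcases nb.all t ht with rfl | rfl | rfl
    · exact absurd rfl hty
    · rfl
    · exfalso
      rcases h with h | h | h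
      · exact h.2 (hd h.1)
      · exact h Xd
      · subst h
        have := hsb nb.hc
        omega
  obtain ⟨c, d, nb⟩ := nb_one hcub hyb.symm
  by_cases Xc : X c
  · by_cases Xd : X d
    · have c2 : cc G X b = 2 := cc_of_cross nb (iff_of_false Yy Yb)
        (fun hh => Yb (hh.mp Xc)) (fun hh => Yb (hh.mp Xd))
      -- the choice of the two
      have choice : ∃ c d, Nb G b y c d ∧ X c ∧ X d ∧
          (∀ t, G.Adj b t → t ≠ y → (L t ∧ ¬ Even (f t)) ∨ t = s → t = c) ∧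
          (L d → Even (f d)) ∧ (¬ L d → ¬ (L c ∧ ¬ Even (f c))) := by
        by_cases hbad : ∃ e, G.Adj b e ∧ e ≠ y ∧ L e ∧ ¬ Even (f e)
        · obtain ⟨e, hbe, hey, hLe, hodd⟩ := hbad
          obtain ⟨c', d', nb', rfl⟩ : ∃ c' d', Nb G b y c' d' ∧ c' = e := by
            rcases nb.all e hbe with h | h | h
            · exact absurd h hey
            · exact ⟨c, d, nb, h.symm⟩
            · exact ⟨d, c, nb.swap.rot, h.symm⟩
          have Xc' : X c' := by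
            rcases nb.all c' nb'.hb with h | h | h
            · exact absurd h.symm nb'.ab
            · rw [h]; exact Xc
            · rw [h]; exact Xd
          have Xd' : X d' := by
            rcases nb.all d' nb'.hc with h | h | h
            · exact absurd h.symm nb'.ac
            · rw [h]; exact Xc
            · rw [h]; exact Xd
          have hB : Bad X f c' := by
            unfold Bad
            tauto
          have hnear : Helper33.L9.near G y c' := ⟨nb'.ab, Or.inr ⟨b, hyb, nb'.hb⟩⟩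
          obtain ⟨-, b', hub', -, -, -, hall⟩ :=
            st.tol c' y hLe hB hy (Helper33.L9.near_symm hnear)
          rw [own_one' hcub cy hub' hoy] at hall
          obtain ⟨k1, k2⟩ := hall d' (mem_cr.mpr ⟨nb'.hc, fun hh => Yb (hh.mp Xd')⟩)
            nb'.bc.symm
          have hd : Even (f d') := even_ok k2 Xd'
          refine ⟨c', d', nb', Xc', Xd', ?_, fun _ => hd, fun hh => absurd k1 hh⟩
          intro t ht hty h
          rcases nb'.all t ht with h1 | h1 | h1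
          · exact absurd h1 hty
          · exact h1
          · exfalso
            rw [h1] at h
            rcases h with h | h
            · exact h.2 hd
            · exact hs (h ▸ k1)
        · push Not at hbad
          obtain ⟨c', d', nb', hd⟩ : ∃ c' d', Nb G b y c' d' ∧ d' ≠ s := by
            by_cases h : d = s
            · refine ⟨d, c, nb.swap.rot, fun hh => ?_⟩
              exact nb.bc (hh.trans h.symm)
            · exact ⟨c, d, nb, h⟩
          have Xc' : X c' := by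
            rcases nb.all c' nb'.hb with h | h | h
            · exact absurd h.symm nb'.ab
            · rw [h]; exact Xc
            · rw [h]; exact Xd
          have Xd' : X d' := by
            rcases nb.all d' nb'.hc with h | h | h
            · exact absurd h.symm nb'.ac
            · rw [h]; exact Xc
            · rw [h]; exact Xd
          refine ⟨c', d', nb', Xc', Xd', ?_, hbad d' nb'.hc nb'.ac.symm,
            fun _ hh => hh.2 (hbad c' nb'.hb nb'.ab.symm hh.1)⟩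
          intro t ht hty h
          rcases nb'.all t ht with h1 | h1 | h1
          · exact absurd h1 hty
          · exact h1
          · exfalso
            rcases h with h | h
            · exact h.2 (hbad t ht hty h.1)
            · exact hd (h1.symm.trans h)
      obtain ⟨c, d, nb, Xc, Xd, h1, h2, h3⟩ := choice
      refine ⟨c, d, nb, fun hh => by omega, fun _ => ⟨Xc, Xd⟩, ?_, h2, fun hh => Or.inr (h3 hh)⟩
      intro t ht hty h
      rcases h with h | h | h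
      · exact h1 t ht hty (Or.inl h)
      · exfalso
        rcases nb.all t ht with h4 | h4 | h4
        · exact hty h4
        · exact h (h4 ▸ Xc)
        · exact h (h4 ▸ Xd)
      · exact h1 t ht hty (Or.inr h)
    · exact key3 d c nb.swap.rot Xd Xc
  · by_cases Xd : X d
    · exact key3 c d nb Xc Xd
    · exact absurd ⟨iff_of_false Yy Xc, iff_of_false Yy Xd⟩
        (hNM y c d nb.ha nb.hb nb.hc nb.ab nb.ac nb.bc)

end basic


/-- a `U_5` with its neighbours and a state in which its vertices are unlabelled -/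
structure JC (G : SimpleGraph V) (X : V → Prop) (Z S : Finset V) (L : V → Prop) (f : V → ℕ)
    (v1 v2 v3 v4 v5 z1 z3 z5 l1 l5 : V) (kA kB : ℕ) (pA uA vA qA yA pB uB vB qB yB : ℕ → V)
    (w1 w3 w3' w5 ba0 bak bb0 bbk : V) : Prop where
  h : U5 G X Z S v1 v2 v3 v4 v5 z1 z3 z5 l1 l5 kA kB pA uA vA qA yA pB uB vB qB yB
  n : UNb G X v1 v2 v3 v4 v5 z1 z3 z5 l1 l5 w1 w3 w3' w5 (yA 0) (yA kA) (yB 0) (yB kB)
    (if 0 = kA then v1 else uA 0) (if kA = 0 then v4 else vA (kA - 1))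
    (if 0 = kB then v5 else uB 0) (if kB = 0 then v2 else vB (kB - 1)) ba0 bak bb0 bbk
  st : JSt G X L f
  hL : ∀ x, LamU v1 v2 v3 v4 v5 kA kB uA vA yA uB vB yB x → ¬ L x

section

variable {v1 v2 v3 v4 v5 z1 z3 z5 l1 l5 : V} {kA kB : ℕ}
  {pA uA vA qA yA pB uB vB qB yB : ℕ → V} {w1 w3 w3' w5 ba0 bak bb0 bbk : V}
  (hcub : ∀ v, (univ.filter fun b => G.Adj v b).card = 3)
  (H : JC G X Z S L f v1 v2 v3 v4 v5 z1 z3 z5 l1 l5 kA kB pA uA vA qA yA pB uB vB qB yB
    w1 w3 w3' w5 ba0 bak bb0 bbk)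

include H

theorem JC.rev : JC G X Z S L f v5 v4 v3 v2 v1 z5 z3 z1 l5 l1 kB kA pB uB vB qB yB
    pA uA vA qA yA w5 w3 w3' w1 bb0 bbk ba0 bak where
  h := u5_rev H.h
  n := H.n.rev
  st := H.st
  hL := fun x hx => H.hL x ((lamU_rev x).mpr hx)

theorem JC.u1 : ¬ L v1 := H.hL _ (Or.inl rfl)

theorem JC.u2 : ¬ L v2 := H.hL _ (Or.inr (Or.inl rfl))

theorem JC.u3 : ¬ L v3 := H.hL _ (Or.inr (Or.inr (Or.inl rfl)))

theorem JC.u4 : ¬ L v4 := H.rev.u2

theorem JC.u5 : ¬ L v5 := H.rev.u1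

theorem JC.uuA {i : ℕ} (hi : i < kA) : ¬ L (uA i) :=
  H.hL _ (Or.inr (Or.inr (Or.inr (Or.inr (Or.inr (Or.inl ⟨i, hi, Or.inl rfl⟩))))))

theorem JC.uvA {i : ℕ} (hi : i < kA) : ¬ L (vA i) :=
  H.hL _ (Or.inr (Or.inr (Or.inr (Or.inr (Or.inr (Or.inl ⟨i, hi, Or.inr rfl⟩))))))

theorem JC.uyA {i : ℕ} (hi : i ≤ kA) : ¬ L (yA i) :=
  H.hL _ (Or.inr (Or.inr (Or.inr (Or.inr (Or.inr (Or.inr (Or.inl ⟨i, hi, rfl⟩)))))))

theorem JC.uva : ¬ L (if kA = 0 then v4 else vA (kA - 1)) := by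
  split_ifs with h
  · exact H.u4
  · exact H.uvA (by omega)

theorem JC.uua : ¬ L (if 0 = kA then v1 else uA 0) := by
  split_ifs with h
  · exact H.u1
  · exact H.uuA (by omega)

theorem JC.nA {i : ℕ} (hi : i < kA) : (uA i ≠ v1 ∧ uA i ≠ v2 ∧ uA i ≠ v3 ∧ uA i ≠ v4 ∧
    uA i ≠ v5) ∧ (vA i ≠ v1 ∧ vA i ≠ v2 ∧ vA i ≠ v3 ∧ vA i ≠ v4 ∧ vA i ≠ v5) := by
  have := H.h.noA i hi
  simp only [List.mem_cons, List.not_mem_nil, or_false, not_or] at this
  exact this

theorem JC.nd5 : v1 ≠ v2 ∧ v1 ≠ v3 ∧ v1 ≠ v4 ∧ v1 ≠ v5 ∧ v2 ≠ v3 ∧ v2 ≠ v4 ∧ v2 ≠ v5 ∧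
    v3 ≠ v4 ∧ v3 ≠ v5 ∧ v4 ≠ v5 := by
  have := H.h.nd
  simp only [List.nodup_cons, List.mem_cons, List.not_mem_nil, or_false, not_or,
    List.nodup_nil, and_true, not_false_eq_true] at this
  tauto

/-- ends of units are no ends of the path -/
theorem JC.q_ne (hcub : ∀ v, (univ.filter fun b => G.Adj v b).card = 3) {i : ℕ} (hi : i < kA) :
    (pA i ≠ v1 ∧ pA i ≠ v5) ∧ (qA i ≠ v1 ∧ qA i ≠ v5) := by
  have hu := H.h.A.unit i hi
  obtain ⟨⟨a1, a2, a3, a4, a5⟩, b1, b2, b3, b4, b5⟩ := H.nA hi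
  refine ⟨⟨?_, ?_⟩, ?_, ?_⟩
  · intro he
    have := own_one' hcub H.h.c1 (he ▸ hu.pu) H.h.o12
    exact a2 this
  · intro he
    have := own_one' hcub H.h.c5 (he ▸ hu.pu) (Helper33.L9.ownR_symm H.h.o45)
    exact a4 this
  · intro he
    have := own_one' hcub H.h.c1 (he ▸ Helper33.L9.ownR_symm hu.vq) H.h.o12
    exact b2 this
  · intro he
    have := own_one' hcub H.h.c5 (he ▸ Helper33.L9.ownR_symm hu.vq)
      (Helper33.L9.ownR_symm H.h.o45)
    exact b4 this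

/-- the caps of the links and outer links -/
theorem JC.ccs : cc G X (yA 0) = 2 ∧ cc G X (yA kA) = 2 ∧ cc G X z1 = 2 :=
  ⟨H.h.A.y2 0 (Nat.zero_le _), H.h.A.y2 kA le_rfl, H.h.e1.2.1⟩

/-! ### parities -/

theorem JC.par_z1 (h : L z1) : ¬ Even (f z1) :=
  odd_ok (ok_adj H.st H.u1 H.n.n1.hb h) H.n.Z1

theorem JC.par_z5 (h : L z5) : ¬ Even (f z5) := H.rev.par_z1 h

theorem JC.par_z3 (h : L z3) : ¬ Even (f z3) :=
  odd_ok (ok_adj H.st H.u3 H.n.n3.hc h) H.n.Z3

include hcub in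
theorem JC.par_l1 (h : L l1) : Even (f l1) :=
  even_ok (ok_near hcub H.st H.u1 H.u2 H.h.o12
    ⟨H.n.m1.ab, Or.inr ⟨z1, H.n.n1.hb, H.n.m1.hb⟩⟩ h) H.n.Xl1

include hcub in
theorem JC.par_l5 (h : L l5) : Even (f l5) := H.rev.par_l1 hcub h

include hcub in
theorem JC.par_w1 (h : L w1) : ¬ Even (f w1) :=
  odd_ok (ok_near hcub H.st H.u1 H.u2 H.h.o12
    ⟨H.n.m1.ac, Or.inr ⟨z1, H.n.n1.hb, H.n.m1.hc⟩⟩ h) H.n.W1

include hcub in
theorem JC.par_w5 (h : L w5) : ¬ Even (f w5) := H.rev.par_w1 hcub h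

theorem JC.par_w3 : (L w3 → ¬ Even (f w3)) ∧ (L w3' → ¬ Even (f w3')) :=
  ⟨fun h => odd_ok (ok_near3 H.st H.u3 H.h.c3
      ⟨H.n.m3.ab, Or.inr ⟨z3, H.n.n3.hc, H.n.m3.hb⟩⟩ h) H.n.W3,
    fun h => odd_ok (ok_near3 H.st H.u3 H.h.c3
      ⟨H.n.m3.ac, Or.inr ⟨z3, H.n.n3.hc, H.n.m3.hc⟩⟩ h) H.n.W3'⟩

theorem JC.par_bak (h : L bak) : ¬ Even (f bak) :=
  odd_ok (ok_adj H.st (H.uyA le_rfl) H.n.ak.hc h) H.n.Cak

theorem JC.par_bbk (h : L bbk) : ¬ Even (f bbk) := H.rev.par_bak h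

theorem JC.par_ba0 (h : L ba0) : ¬ Even (f ba0) :=
  odd_ok (ok_adj H.st (H.uyA (Nat.zero_le _)) H.n.a0.hc h) H.n.Ca0

theorem JC.par_bb0 (h : L bb0) : ¬ Even (f bb0) := H.rev.par_ba0 h

theorem JC.par_pA {i : ℕ} (hi : i < kA) :
    (L (pA i) → Even (f (pA i))) ∧ (L (qA i) → Even (f (qA i))) := by
  have hu := H.h.A.unit i hi
  exact ⟨fun h => even_ok (ok_adj H.st (H.uuA hi) hu.pu.1.symm h) (wX_p H.h.A H.n.X4 hi),
    fun h => even_ok (ok_adj H.st (H.uvA hi) hu.vq.1 h) (wX_q H.h.A H.n.X4 hi)⟩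

theorem JC.par_pB {i : ℕ} (hi : i < kB) :
    (L (pB i) → Even (f (pB i))) ∧ (L (qB i) → Even (f (qB i))) := H.rev.par_pA hi

/-! ### near `v1` -/

include hcub in
/-- **slots of `v1`** -/
theorem JC.slot_v1 {t : V} (hn : Helper33.L9.near G v1 t)
    (ht : (L t ∧ ¬ Even (f t)) ∨ (¬ X t ∧ t ≠ yA kA ∧ t ≠ yB 0)) :
    t = z1 ∨ t = w1 ∨ t = bak := by
  rcases H.n.near1 hn with h | h | h | h | h | h | h | h | h
  · exfalso
    rw [h] at ht
    rcases ht with h' | h'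
    · exact H.u2 h'.1
    · exact h'.1 H.n.X2
  · exact Or.inl h
  · exfalso
    rcases ht with h' | h'
    · exact H.uyA le_rfl (h ▸ h'.1)
    · exact h'.2.1 h
  · exfalso
    rw [h] at ht
    rcases ht with h' | h'
    · exact H.u3 h'.1
    · exact h'.1 H.n.X3
  · exfalso
    rcases ht with h' | h'
    · exact H.rev.uyA (Nat.zero_le _) (h ▸ h'.1)
    · exact h'.2.2 h
  · exfalso
    rw [h] at ht
    rcases ht with h' | h'
    · exact h'.2 (H.par_l1 hcub h'.1)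
    · exact h'.1 H.n.Xl1
  · exact Or.inr (Or.inl h)
  · exfalso
    rw [h] at ht
    rcases ht with h' | h'
    · exact H.uva h'.1
    · exact h'.1 H.n.Xva
  · exact Or.inr (Or.inr h)

/-! ### near the last link -/

include hcub in
theorem JC.near_yAk {c d t : V} (nb : Nb G bak (yA kA) c d)
    (hn : Helper33.L9.near G (yA kA) t) : t = z1 ∨ t = bak ∨
      (X t ∧ (L t → Even (f t)) ∧ (t = v5 → kA = 0)) ∨ (G.Adj bak t ∧ t ≠ yA kA) := by
  obtain ⟨n12, n13, n14, n15, n23, n24, n25, n34, n35, n45⟩ := H.nd5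
  obtain ⟨a1, a2, nva, ha1, ha2⟩ : ∃ a1 a2, Nb G (if kA = 0 then v4 else vA (kA - 1)) (yA kA)
      a1 a2 ∧ (X a1 ∧ (L a1 → Even (f a1)) ∧ (a1 = v5 → kA = 0)) ∧
      (X a2 ∧ (L a2 → Even (f a2)) ∧ (a2 = v5 → kA = 0)) := by
    by_cases hk : kA = 0
    · subst hk
      rw [if_pos rfl]
      exact ⟨v3, v5, H.n.n4.rot.rot, ⟨H.n.X3, fun hh => absurd hh H.u3, fun _ => rfl⟩,
        H.n.X5, fun hh => absurd hh H.u5, fun _ => rfl⟩
    · have hk1 : kA - 1 < kA := by omega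
      have e1 : kA - 1 + 1 = kA := by omega
      have n1 := wN_v hcub H.h.A H.n.X4 hk1
      rw [e1] at n1
      rw [if_neg hk]
      refine ⟨uA (kA - 1), qA (kA - 1), n1.rot.rot, ⟨wX_u H.h.A H.n.X4 hk1,
        fun hh => absurd hh (H.uuA hk1), fun hh => absurd hh (H.nA hk1).1.2.2.2.2⟩,
        wX_q H.h.A H.n.X4 hk1, (H.par_pA hk1).2, fun hh => absurd hh (H.q_ne hcub hk1).2.2⟩
  rcases near9 H.n.ak H.n.n1.rot.rot nva nb hn with h | h | h | h | h | h | h | h | h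
  · rw [h]
    exact Or.inr (Or.inr (Or.inl ⟨H.n.X1, fun hh => absurd hh H.u1, fun hh => absurd hh n15⟩))
  · rw [h]
    refine Or.inr (Or.inr (Or.inl ⟨H.n.Xva, fun hh => absurd hh H.uva, fun hh => ?_⟩))
    by_contra hk
    rw [if_neg hk] at hh
    exact (H.nA (by omega)).2.2.2.2.2 hh
  · exact Or.inr (Or.inl h)
  · rw [h]
    exact Or.inr (Or.inr (Or.inl ⟨H.n.X2, fun hh => absurd hh H.u2, fun hh => absurd hh n25⟩))
  · exact Or.inl h
  · rw [h]
    exact Or.inr (Or.inr (Or.inl ha1))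
  · rw [h]
    exact Or.inr (Or.inr (Or.inl ha2))
  · rw [h]
    exact Or.inr (Or.inr (Or.inr ⟨nb.hb, nb.ab.symm⟩))
  · rw [h]
    exact Or.inr (Or.inr (Or.inr ⟨nb.hc, nb.ac.symm⟩))

/-- a cross neighbour of `v5` has two cross neighbours -/
theorem JC.nb5 {b : V} (hb : G.Adj b v5) (Yb : ¬ X b) : cc G X b = 2 := by
  rcases H.n.n5.all b hb.symm with h | h | h
  · exact absurd (h ▸ H.n.X4) Yb
  · rw [h]; exact H.rev.ccs.2.2
  · rw [h]; exact H.rev.ccs.2.1

theorem JC.nb1 {b : V} (hb : G.Adj b v1) (Yb : ¬ X b) : cc G X b = 2 := H.rev.nb5 hb Yb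

include hcub in
/-- **slots of the last link** -/
theorem JC.slot_yAk (hNM : NMAt G X bak) :
    ∃ c d, Nb G bak (yA kA) c d ∧ (cc G X bak = 3 → ¬ X c ∧ X d) ∧
      (cc G X bak = 2 → X c ∧ X d) ∧
      (∀ t, Helper33.L9.near G (yA kA) t →
        (L t ∧ ¬ Even (f t)) ∨ ¬ X t ∨ (t = v5 ∧ kA ≠ 0) → t = z1 ∨ t = bak ∨ t = c) ∧
      (L d → Even (f d)) ∧ (¬ L d → cc G X bak = 3 ∨ ¬ (L c ∧ ¬ Even (f c))) := by
  obtain ⟨c, d, nb, h3, h2, hall, h4, h5⟩ := slot_aux hcub H.st H.ccs.2.1 (H.uyA le_rfl)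
    H.n.Ak H.n.Cak H.n.ak.hc hNM H.u5 H.n.X5 (fun hh => H.nb5 hh H.n.Cak)
  refine ⟨c, d, nb, h3, h2, fun t hn ht => ?_, h4, h5⟩
  rcases H.near_yAk hcub nb hn with h | h | h | h
  · exact Or.inl h
  · exact Or.inr (Or.inl h)
  · exfalso
    rcases ht with ht | ht | ht
    · exact ht.2 (h.2.1 ht.1)
    · exact ht h.1
    · exact ht.2 (h.2.2 ht.1)
  · refine Or.inr (Or.inr (hall t h.1 h.2 ?_))
    rcases ht with ht | ht | ht
    · exact Or.inl ht
    · exact Or.inr (Or.inl ht)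
    · exact Or.inr (Or.inr ht.1)

/-! ### near the first link of a virtual chord -/

include hcub in
theorem JC.near_yA0 (hk : kA ≠ 0) {c d t : V} (nb : Nb G ba0 (yA 0) c d)
    (hn : Helper33.L9.near G (yA 0) t) : t = ba0 ∨
      (X t ∧ (L t → Even (f t)) ∧ t ≠ v1) ∨ (G.Adj ba0 t ∧ t ≠ yA 0) := by
  obtain ⟨n12, n13, n14, n15, n23, n24, n25, n34, n35, n45⟩ := H.nd5
  have hk0 : 0 < kA := by omega
  have hk' : ¬ (0 = kA) := fun hh => hk hh.symm
  have nu := wN_u hcub H.h.A H.n.X4 hk0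
  have n0 := H.n.a0
  rw [if_neg hk'] at n0
  rcases near9 n0 H.n.n4.rot.rot nu.rot.rot nb hn with
    h | h | h | h | h | h | h | h | h
  · rw [h]
    exact Or.inr (Or.inl ⟨H.n.X4, fun hh => absurd hh H.u4, n14.symm⟩)
  · rw [h]
    exact Or.inr (Or.inl ⟨wX_u H.h.A H.n.X4 hk0, fun hh => absurd hh (H.uuA hk0),
      (H.nA hk0).1.1⟩)
  · exact Or.inl h
  · rw [h]
    exact Or.inr (Or.inl ⟨H.n.X3, fun hh => absurd hh H.u3, n13.symm⟩)
  · rw [h]
    exact Or.inr (Or.inl ⟨H.n.X5, fun hh => absurd hh H.u5, n15.symm⟩)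
  · rw [h]
    exact Or.inr (Or.inl ⟨wX_p H.h.A H.n.X4 hk0, (H.par_pA hk0).1, (H.q_ne hcub hk0).1.1⟩)
  · rw [h]
    exact Or.inr (Or.inl ⟨wX_v H.h.A H.n.X4 hk0, fun hh => absurd hh (H.uvA hk0),
      (H.nA hk0).2.1⟩)
  · rw [h]
    exact Or.inr (Or.inr ⟨nb.hb, nb.ab.symm⟩)
  · rw [h]
    exact Or.inr (Or.inr ⟨nb.hc, nb.ac.symm⟩)

include hcub in
/-- **slots of the first link of a virtual chord** -/
theorem JC.slot_yA0 (hk : kA ≠ 0) (hNM : NMAt G X ba0) :
    ∃ c d, Nb G ba0 (yA 0) c d ∧ (cc G X ba0 = 3 → ¬ X c ∧ X d) ∧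
      (cc G X ba0 = 2 → X c ∧ X d) ∧
      (∀ t, Helper33.L9.near G (yA 0) t →
        (L t ∧ ¬ Even (f t)) ∨ ¬ X t ∨ t = v1 → t = ba0 ∨ t = c) ∧
      (L d → Even (f d)) ∧ (¬ L d → cc G X ba0 = 3 ∨ ¬ (L c ∧ ¬ Even (f c))) := by
  obtain ⟨c, d, nb, h3, h2, hall, h4, h5⟩ := slot_aux hcub H.st H.ccs.1
    (H.uyA (Nat.zero_le _))
    H.n.A0 H.n.Ca0 H.n.a0.hc hNM H.u1 H.n.X1 (fun hh => H.nb1 hh H.n.Ca0)
  refine ⟨c, d, nb, h3, h2, fun t hn ht => ?_, h4, h5⟩
  rcases H.near_yA0 hcub hk nb hn with h | h | h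
  · exact Or.inl h
  · exfalso
    rcases ht with ht | ht | ht
    · exact ht.2 (h.2.1 ht.1)
    · exact ht h.1
    · exact h.2.2 ht
  · exact Or.inr (hall t h.1 h.2 ht)

/-! ### exclusivity -/

omit H in
include hcub in
theorem cc_23 {b y c d : V} (nb : Nb G b y c d) (Yb : ¬ X b) (Yy : ¬ X y) (hNM : NMAt G X b) :
    (cc G X b = 2 ∧ X c ∧ X d) ∨ (cc G X b = 3 ∧ ((X c ∧ ¬ X d) ∨ (¬ X c ∧ X d))) := by
  by_cases Xc : X c
  · by_cases Xd : X d
    · exact Or.inl ⟨cc_of_cross nb (iff_of_false Yy Yb) (fun hh => Yb (hh.mp Xc))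
        (fun hh => Yb (hh.mp Xd)), Xc, Xd⟩
    · exact Or.inr ⟨cc_of_own hcub nb.swap.rot (iff_of_false Yy Yb) (iff_of_false Xd Yb),
        Or.inl ⟨Xc, Xd⟩⟩
  · by_cases Xd : X d
    · exact Or.inr ⟨cc_of_own hcub nb (iff_of_false Yy Yb) (iff_of_false Xc Yb),
        Or.inr ⟨Xc, Xd⟩⟩
    · exact absurd ⟨iff_of_false Yy Xc, iff_of_false Yy Xd⟩
        (hNM y c d nb.ha nb.hb nb.hc nb.ab nb.ac nb.bc)

omit H in
include hcub in
theorem excl_aux {b y t t' : V} (hyb : G.Adj y b) (Yb : ¬ X b) (Yy : ¬ X y)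
    (hNM : NMAt G X b) (h : t = b ∨ (G.Adj b t ∧ t ≠ y)) (h' : t' = b ∨ (G.Adj b t' ∧ t' ≠ y))
    (Yt : ¬ X t) (Yt' : ¬ X t') (ct : cc G X t = 2) (ct' : cc G X t' = 2) : t = t' := by
  obtain ⟨c, d, nb⟩ := nb_one hcub hyb.symm
  rcases cc_23 hcub nb Yb Yy hNM with ⟨c2, Xc, Xd⟩ | ⟨c3, hX⟩
  · have key : ∀ s, s = b ∨ (G.Adj b s ∧ s ≠ y) → ¬ X s → s = b := by
      rintro s (h1 | ⟨h1, h2⟩) hs
      · exact h1
      · exfalso
        rcases nb.all s h1 with h3 | h3 | h3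
        · exact h2 h3
        · exact hs (h3 ▸ Xc)
        · exact hs (h3 ▸ Xd)
    rw [key t h Yt, key t' h' Yt']
  · have h1 : G.Adj b t ∧ t ≠ y := by
      rcases h with h | h
      · rw [h] at ct; omega
      · exact h
    have h1' : G.Adj b t' ∧ t' ≠ y := by
      rcases h' with h | h
      · rw [h] at ct'; omega
      · exact h
    rcases nb.all t h1.1 with h2 | h2 | h2
    · exact absurd h2 h1.2
    · rcases nb.all t' h1'.1 with h3 | h3 | h3
      · exact absurd h3 h1'.2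
      · rw [h2, h3]
      · rw [h2] at Yt
        rw [h3] at Yt'
        tauto
    · rcases nb.all t' h1'.1 with h3 | h3 | h3
      · exact absurd h3 h1'.2
      · rw [h2] at Yt
        rw [h3] at Yt'
        tauto
      · rw [h2, h3]

include hcub in
/-- at most one further vertex like a link is near the last link -/
theorem JC.excl_yAk (hNM : NMAt G X bak) {t t' : V} (hn : Helper33.L9.near G (yA kA) t)
    (hn' : Helper33.L9.near G (yA kA) t') (Yt : ¬ X t) (Yt' : ¬ X t') (ct : cc G X t = 2)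
    (ct' : cc G X t' = 2) (hz : t ≠ z1) (hz' : t' ≠ z1) : t = t' := by
  obtain ⟨c, d, nb⟩ := nb_one hcub H.n.ak.hc.symm
  refine excl_aux hcub H.n.ak.hc H.n.Cak H.n.Ak hNM ?_ ?_ Yt Yt' ct ct'
  · rcases H.near_yAk hcub nb hn with h | h | h | h
    · exact absurd h hz
    · exact Or.inl h
    · exact absurd h.1 Yt
    · exact Or.inr h
  · rcases H.near_yAk hcub nb hn' with h | h | h | h
    · exact absurd h hz'
    · exact Or.inl h
    · exact absurd h.1 Yt'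
    · exact Or.inr h

include hcub in
/-- at most one further vertex like a link is near the first link -/
theorem JC.excl_yA0 (hk : kA ≠ 0) (hNM : NMAt G X ba0) {t t' : V}
    (hn : Helper33.L9.near G (yA 0) t)
    (hn' : Helper33.L9.near G (yA 0) t') (Yt : ¬ X t) (Yt' : ¬ X t') (ct : cc G X t = 2)
    (ct' : cc G X t' = 2) : t = t' := by
  obtain ⟨c, d, nb⟩ := nb_one hcub H.n.a0.hc.symm
  refine excl_aux hcub H.n.a0.hc H.n.Ca0 H.n.A0 hNM ?_ ?_ Yt Yt' ct ct'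
  · rcases H.near_yA0 hcub hk nb hn with h | h | h
    · exact Or.inl h
    · exact absurd h.1 Yt
    · exact Or.inr h
  · rcases H.near_yA0 hcub hk nb hn' with h | h | h
    · exact Or.inl h
    · exact absurd h.1 Yt'
    · exact Or.inr h

include hcub in
/-- near `yA0 yB0` excludes near `v1 yA0` -/
theorem JC.no_v1_yA0 (hk : kA ≠ 0) (hn : Helper33.L9.near G (yA 0) (yB 0)) :
    ¬ Helper33.L9.near G v1 (yA 0) := by
  intro h1
  obtain ⟨c, d, nb⟩ := nb_one hcub H.n.a0.hc.symm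
  have hoa : ownR G X (yA 0) ba0 := ⟨H.n.a0.hc, iff_of_false H.n.A0 H.n.Ca0⟩
  -- `o`: the own neighbour of `yA 0`, an end
  have key : ∀ o, ownR G X (yA 0) o → cc G X o = 2 → yB 0 ≠ o → False := by
    intro o ho co hne
    have hob : ba0 = o := own_one' hcub H.ccs.1 hoa ho
    rcases H.near_yA0 hcub hk nb hn with h | h | h
    · exact hne (h.trans hob)
    · exact H.n.B0 h.1
    · rw [hob] at h
      exact h.2 (own_one' hcub co ⟨h.1, iff_of_false (hob ▸ H.n.Ca0) H.n.B0⟩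
        (Helper33.L9.ownR_symm ho))
  rcases H.n.near1 h1 with h | h | h | h | h | h | h | h | h
  · exact H.n.A0 (h ▸ H.n.X2)
  · exact H.n.z1y.1 h.symm
  · have := H.h.A.nyy 0 (Nat.zero_le _) kA le_rfl h
    exact hk this.symm
  · exact H.n.A0 (h ▸ H.n.X3)
  · exact H.n.dAB.1 h
  · exact H.n.A0 (h ▸ H.n.Xl1)
  · exact key z1 (h ▸ ⟨H.n.m1.hc.symm, iff_of_false H.n.W1 H.n.Z1⟩) H.ccs.2.2
      H.n.z1y.2.2.1.symm
  · have h2 := H.n.Xva
    rw [← h] at h2
    exact H.n.A0 h2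
  · exact key (yA kA) (h ▸ ⟨H.n.ak.hc.symm, iff_of_false H.n.Cak H.n.Ak⟩) H.ccs.2.1
      H.n.dAB.2.2.1.symm

include hcub in
/-- if the last links are near each other: `v1` near `yBk` implies `v5` near `yAk` -/
theorem JC.v1_v5 (hk : kB ≠ 0) (hn : Helper33.L9.near G (yA kA) (yB kB))
    (h1 : Helper33.L9.near G v1 (yB kB)) : Helper33.L9.near G v5 (yA kA) := by
  have hob : ownR G X (yB kB) bbk := ⟨H.n.bk.hc, iff_of_false H.n.Bk H.n.Cbk⟩
  rcases H.n.near1 h1 with h | h | h | h | h | h | h | h | h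
  · exact absurd (h ▸ H.n.X2) H.n.Bk
  · exact absurd h.symm H.n.z1y.2.2.2
  · exact absurd h.symm H.n.dAB.2.2.2
  · exact absurd (h ▸ H.n.X3) H.n.Bk
  · exact absurd (H.h.B.nyy kB le_rfl 0 (Nat.zero_le _) h) hk
  · exact absurd (h ▸ H.n.Xl1) H.n.Bk
  · exfalso
    have ho : ownR G X (yB kB) z1 := h ▸ ⟨H.n.m1.hc.symm, iff_of_false H.n.W1 H.n.Z1⟩
    have hbz : bbk = z1 := own_one' hcub H.rev.ccs.2.1 hob ho
    obtain ⟨c, d, nb⟩ := nb_one hcub H.n.bk.hc.symm
    rcases H.rev.near_yAk hcub nb (Helper33.L9.near_symm hn) with h2 | h2 | h2 | h2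
    · exact H.n.z5y.2.1 h2.symm
    · exact H.n.z1y.2.1 (h2.trans hbz).symm
    · exact H.n.Ak h2.1
    · rw [hbz] at h2
      exact h2.2 (own_one' hcub H.ccs.2.2 ⟨h2.1, iff_of_false H.n.Z1 H.n.Ak⟩
        (Helper33.L9.ownR_symm ho))
  · exfalso
    have h2 := H.n.Xva
    rw [← h] at h2
    exact H.n.Bk h2
  · refine ⟨fun he => H.n.Ak (he ▸ H.n.X5), Or.inr ⟨yB kB, H.n.n5.hc, ?_⟩⟩
    rw [h]
    exact H.n.ak.hc.symm

include hcub in
theorem JC.v1_iff_v5 (hkA : kA ≠ 0) (hkB : kB ≠ 0)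
    (hn : Helper33.L9.near G (yA kA) (yB kB)) :
    Helper33.L9.near G v1 (yB kB) ↔ Helper33.L9.near G v5 (yA kA) :=
  ⟨H.v1_v5 hcub hkB hn, H.rev.v1_v5 hcub hkA (Helper33.L9.near_symm hn)⟩

end

end Pool.Agent.helper45.L9
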